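import Pool.Agent.Q271.CM.Tri

set_option autoImplicit false

/-!
# MP_067019: the circular mixing threshold of a non-bipartite graph need not be attained
-/

namespace Pool.Agent.Results.MP_067019_co.NotAttained

open Pool.Agent.Q271.CM

/-- **MP_067019, Q1: negative answer.** There is a finite connected non-bipartite graph `G` for
which `RSet G` is the set of all rationals greater than `4`; hence its infimum `4` is rational
and is not a minimum: no element of `RSet G` equals the circular mixing threshold. -/
theorem result : ∃ (V : Type) (_ : Fintype V) (G : SimpleGraph V), G.Connected ∧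
    ¬ G.Colorable 2 ∧ RSet G = {r : ℚ | 4 < r} ∧ ¬ ∃ r ∈ RSet G, (r : ℝ) = circThr G := by
  refine ⟨VV, inferInstance, GG, conn, not_bipartite, Set.ext fun r => rset_iff r, ?_⟩
  rintro ⟨r, hr, he⟩
  rw [rset_iff] at hr
  rw [circThr_eq] at he
  have h : (r : ℝ) = ((4 : ℚ) : ℝ) := by rw [he]; norm_num
  have h2 : r = 4 := by exact_mod_cast h
  rw [h2] at hr
  exact lt_irrefl _ hr

end Pool.Agent.Results.MP_067019_co.NotAttained
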